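import Mathlib
import Pool.Agent.TH560.Ori.Main

set_option autoImplicit false

/-!
# Two-vertex rigid origami with disconnected configuration space

The definitions (crease patterns, rigid origami maps, folding angles, configuration space,
two-vertex patterns, rigid foldability) are in `Pool.Agent.TH560.Ori.Defs`.

The crease pattern is drawn on the rectangle `[-2, 9/4] x [-1/10, 1/10]`. Its interior vertices are
`(0, 0)` and `(1, 0)`; both are (flat-foldable) vertices of degree four, joined by a crease.
-/

namespace Pool.Agent.Results.MP_aa2243_gt.Disconnected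

open Set Pool.Agent.TH560.Ori

theorem degree : ∀ v ∈ (pat.V : Set Plane) ∩ interior pat.R,
    {i | pat.p i = v ∨ pat.q i = v}.ncard = 4 := by
  intro v hv
  change v ∈ (verts : Set Plane) ∩ interior sheet at hv
  rw [verts_inter] at hv
  change {i | pp i = v ∨ qq i = v}.ncard = 4
  have ne : vv ≠ ww := vv_ne_ww
  have q0 : qq 0 = ww := rfl
  have nq : ∀ i : Fin 7, i ≠ 0 → qq i ≠ vv ∧ qq i ≠ ww := by
    intro i hi
    constructor <;> intro h <;> have h1 := congrArg (fun x : Plane => x 1) h <;>
      fin_cases i <;> simp [qq, vv, ww] at h1 hi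
  rcases hv with rfl | hv
  · have e : {i | pp i = vv ∨ qq i = vv} = ((({0, 1, 2, 3} : Finset (Fin 7))) : Set (Fin 7)) := by
      ext i
      simp only [mem_ofPred_eq, Finset.coe_insert, Finset.coe_singleton, mem_insert_iff,
        mem_singleton_iff]
      fin_cases i <;> simp [pp, ne.symm, (nq _ _).1]
    rw [e, Set.ncard_coe_finset]
    rfl
  · rw [mem_singleton_iff] at hv
    subst hv
    have e : {i | pp i = ww ∨ qq i = ww} = ((({0, 4, 5, 6} : Finset (Fin 7))) : Set (Fin 7)) := by
      ext i
      simp only [mem_ofPred_eq, Finset.coe_insert, Finset.coe_singleton, mem_insert_iff,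
        mem_singleton_iff]
      fin_cases i <;> simp [pp, ne, q0]
      · exact (nq 1 (by decide)).2
      · exact (nq 2 (by decide)).2
      · exact (nq 3 (by decide)).2
    rw [e, Set.ncard_coe_finset]
    rfl

/-- **There is a rigid-foldable two-vertex crease pattern whose configuration space is
disconnected.** The sheet is convex, both interior vertices have degree four and every crease ends
in one of them. The last clause says that this does not depend on which of the signs `π`, `-π` one
allows for creases which are folded flat: the same holds for every set `C` between the set of all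
realised `ρ` in `(-π, π) ^ 7` and the configuration space. -/
theorem result : ∃ G : CreasePattern (Fin 7),
    G.IsTwoVertex ∧ Convex ℝ G.R ∧
    (∀ i, G.p i ∈ interior G.R) ∧
    (∀ v ∈ (G.V : Set Plane) ∩ interior G.R, {i | G.p i = v ∨ G.q i = v}.ncard = 4) ∧
    G.RigidFoldable ∧ ¬ IsConnected G.config ∧
    ∀ C : Set (Fin 7 → ℝ), G.config ∩ {ρ | ∀ i, |ρ i| < Real.pi} ⊆ C → C ⊆ G.config →
      (∃ γ : unitInterval → (Fin 7 → ℝ), Continuous γ ∧ γ 0 = 0 ∧ (∀ t, γ t ∈ C) ∧
        ∃ t, γ t ≠ γ 0) ∧ ¬ IsConnected C := by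
  have h0 : (0 : Fin 7 → ℝ) ∈ pat.config := zero_config
  have h2 : ang 2 ∈ pat.config := far_config
  refine ⟨pat, pat_isTwoVertex, convex_sheet, pp_mem, degree, ?_, ?_, ?_⟩
  · obtain ⟨γ, g1, g2, g3, -, g5⟩ := foldable
    exact ⟨γ, g1, g2, g3, g5⟩
  · exact fun h => separated _ Subset.rfl h0 h2 h.isPreconnected
  · intro C hC1 hC2
    refine ⟨?_, fun h => separated C hC2 ?_ ?_ h.isPreconnected⟩
    · obtain ⟨γ, g1, g2, g3, g4, g5⟩ := foldable
      exact ⟨γ, g1, g2, fun t => hC1 ⟨g3 t, g4 t⟩, g5⟩
    · exact hC1 ⟨h0, fun i => by simpa using Real.pi_pos⟩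
    · exact hC1 ⟨h2, fun i => ang_mem 2 i⟩

end Pool.Agent.Results.MP_aa2243_gt.Disconnected
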